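import Mathlib
import Pool.Agent.Y938.Win.D
import Pool.Agent.H383.DivF

/-!
# Large values of both signs of the error term of the divisor problem in every window

`Δ(x) = ∑_{n ≤ x} d(n) - x log x - (2γ - 1) x` is the function `Δ₂` of the Piltz divisor problem.
Its mean square exponent is `β₂ = 1/4`.  Here: with an absolute constant `c > 0`, for all `H ≥ H₀` and
**all** `R ≥ 0`, however large compared with `H`, there are `x` and `y` with `√x, √y ∈ [R, R + H]` and
`Δ(x) ≥ x^{1/4} exp(c (log log H)^{1/4} (log log log H)^{-3/4})`,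
`Δ(y) ≤ -y^{1/4} exp(c (log log H)^{1/4} (log log log H)^{-3/4})`.
-/

set_option autoImplicit false

namespace Pool.Agent.Results.MP_bc6037_nt.EveryWindow

open Pool.Agent.H383 Pool.Agent.H383.Div

/-- the coefficients of the Voronoi series at the squarefree numbers -/
theorem LBp_ad : Pool.Agent.W24.Both.LBp ad := by
  refine ⟨1 / (Real.pi * √2), by positivity, fun S hS => ?_⟩
  have hcop : ∀ T : Finset ℕ, (∀ p ∈ T, p.Prime) →
      (∏ p ∈ T, p).divisors.card = 2 ^ T.card := by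
    intro T
    induction T using Finset.induction_on with
    | empty => intro _; simp
    | insert q T hq ih =>
      intro hT
      have hqp : q.Prime := hT q (Finset.mem_insert_self _ _)
      have hT' : ∀ p ∈ T, p.Prime := fun p hp => hT p (Finset.mem_insert_of_mem hp)
      have hc : Nat.Coprime q (∏ p ∈ T, p) := by
        refine Nat.Coprime.prod_right fun p hp => ?_
        refine (Nat.coprime_primes hqp (hT' p hp)).2 ?_
        rintro rfl
        exact hq hp
      rw [Finset.prod_insert hq, Nat.Coprime.card_divisors_mul hc, ih hT', hqp.divisors,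
        Finset.card_pair hqp.one_lt.ne, Finset.card_insert_of_notMem hq]
      ring
  have h1 := hcop S fun p hp => (hS p hp).1
  have h2 : ((∏ p ∈ S, p : ℕ) : ℝ) ^ (-(3 / 4) : ℝ) = ∏ p ∈ S, (p : ℝ) ^ (-(3 / 4) : ℝ) := by
    rw [Nat.cast_prod, ← Real.finsetProd_rpow _ _ (fun i _ => Nat.cast_nonneg i)]
  unfold ad Pool.Agent.H387R2.Vor.dv
  rw [h1, h2, Finset.prod_mul_distrib, Finset.prod_const]
  push_cast
  apply le_of_eq
  ring

/-- **Large values of both signs in every window.** -/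
theorem result : ∃ c H₀ : ℝ, 0 < c ∧ ∀ R H : ℝ, 0 ≤ R → H₀ ≤ H →
    (∃ x : ℝ, 0 < x ∧ R ≤ √x ∧ √x ≤ R + H ∧
      x ^ (1 / 4 : ℝ) * Real.exp (c * (Real.log (Real.log H)) ^ (1 / 4 : ℝ) *
        (Real.log (Real.log (Real.log H))) ^ (-(3 / 4) : ℝ)) ≤
        (∑ n ∈ Finset.Icc 1 ⌊x⌋₊, (n.divisors.card : ℝ)) - x * Real.log x -
          (2 * Real.eulerMascheroniConstant - 1) * x) ∧
    (∃ y : ℝ, 0 < y ∧ R ≤ √y ∧ √y ≤ R + H ∧
      (∑ n ∈ Finset.Icc 1 ⌊y⌋₊, (n.divisors.card : ℝ)) - y * Real.log y -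
          (2 * Real.eulerMascheroniConstant - 1) * y ≤
      -(y ^ (1 / 4 : ℝ) * Real.exp (c * (Real.log (Real.log H)) ^ (1 / 4 : ℝ) *
        (Real.log (Real.log (Real.log H))) ^ (-(3 / 4) : ℝ)))) := by
  obtain ⟨C0, hC0, hS⟩ := E2_Sand vor
  obtain ⟨H0, hH0⟩ := Pool.Agent.Y938.Win.window_main ad_Bd ad_zero wd_Wt hC0 hS LBp_ad
  refine ⟨Pool.Agent.W24.Both.c1, max H0 1, Pool.Agent.W24.Both.c1_pos, ?_⟩
  intro R H hR hH
  obtain ⟨V, hV⟩ : ∃ V : ℝ, V = Real.exp (Pool.Agent.W24.Both.c1 * (Real.log (Real.log H)) ^ (1 / 4 : ℝ) *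
      (Real.log (Real.log (Real.log H))) ^ (-(3 / 4) : ℝ)) := ⟨_, rfl⟩
  have hV0 : 0 < V := by rw [hV]; exact Real.exp_pos _
  have hH1 : 1 ≤ H := le_trans (le_max_right _ _) hH
  have hHH : H0 ≤ H := le_trans (le_max_left _ _) hH
  -- the window for `2 √x`
  have key : ∀ s : ℝ, (s = 1 ∨ s = -1) → ∃ x : ℝ, 0 < x ∧ R ≤ √x ∧ √x ≤ R + H ∧
      x ^ (1 / 4 : ℝ) * V ≤ s * Dx x := by
    intro s hs
    obtain ⟨r, hr, h1⟩ := hH0 (2 * R) H (by linarith) hHH s hs
    rw [← hV] at h1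
    unfold E2 at h1
    have hr0 : 0 ≤ r := by have := hr.1; linarith
    have e1 : Pool.Agent.H387R2.Vor.Ed (r / 2) =
        Dx ((r / 2) ^ 2) / ((r / 2) ^ 2) ^ (1 / 4 : ℝ) := by
      have h := Ed_quad (x := (r / 2) ^ 2) (by positivity)
      rw [Real.sqrt_sq (by linarith)] at h
      exact h
    rw [e1] at h1
    have hpos : 0 < ((r / 2) ^ 2) ^ (1 / 4 : ℝ) := by
      rcases (Real.rpow_nonneg (sq_nonneg (r / 2)) (1 / 4)).lt_or_eq with h | h
      · exact h
      · exfalso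
        rw [← h, div_zero, mul_zero] at h1
        linarith
    have hx0 : 0 < (r / 2) ^ 2 := by
      rcases (sq_nonneg (r / 2)).lt_or_eq with h | h
      · exact h
      · exfalso
        rw [← h, Real.zero_rpow (by norm_num)] at hpos
        exact lt_irrefl _ hpos
    refine ⟨(r / 2) ^ 2, hx0, ?_, ?_, ?_⟩
    · rw [Real.sqrt_sq (by linarith)]
      have := hr.1
      linarith
    · rw [Real.sqrt_sq (by linarith)]
      have := hr.2
      linarith
    · rw [mul_div_assoc', le_div_iff₀ hpos] at h1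
      linarith
  rw [← hV]
  constructor
  · obtain ⟨x, hx0, hx1, hx2, hx3⟩ := key 1 (Or.inl rfl)
    refine ⟨x, hx0, hx1, hx2, ?_⟩
    rw [one_mul] at hx3
    exact hx3
  · obtain ⟨x, hx0, hx1, hx2, hx3⟩ := key (-1) (Or.inr rfl)
    refine ⟨x, hx0, hx1, hx2, ?_⟩
    have h4 : x ^ (1 / 4 : ℝ) * V ≤ -Dx x := by linarith
    have h5 : Dx x ≤ -(x ^ (1 / 4 : ℝ) * V) := by linarith
    exact h5

end Pool.Agent.Results.MP_bc6037_nt.EveryWindow
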