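import Mathlib
import Pool.Agent.U251.LD.FIN
import Pool.Agent.U251.LD.AllQ

/-!
# The error term of the divisor problem is locally a Brownian motion

Let `Δ(x) = ∑_{n ≤ x} d(n) - x (log x + 2γ - 1)` be the function `Δ₂` of the Piltz divisor problem.  For
a base point `y`, a width `ρ` and a number `M` of steps let `pathY Δ ρ M y` be the polygonal path on
`[0, 1]` whose value at `i / M`, `0 ≤ i ≤ M`, is

`(Δ((y + ρ i / M)²) - Δ(y²)) / (√y (4 / π) √(ρ log³(1 / (2ρ))))`.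

If the base point is chosen at random in `[T, 2T]`, and `T → ∞`, `ρ → 0`, `M → ∞` with `ρ ≥ T^{-δ}` and
`M ≤ T^δ` for every `δ > 0`, then this random path converges in law, in `C[0, 1]`, to the standard Brownian
motion; and the same for the base point `T ξ`, where `ξ` is distributed in `[c₁, c₂]` according to any law
`μ` whose Fourier transform decays like `|t|^{-s}`, `s > 1/3`, uniformly in `μ`.
-/

set_option autoImplicit false

open Real MeasureTheory Filter Topology ProbabilityTheory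
open scoped BoundedContinuousFunction NNReal

namespace Pool.Agent.Results.MP_bc6037_nt.LocallyBrownian

open Pool.Agent.U581.BM (bpath)
open Pool.Agent.U251.LD.Fin (pathY AdmY)

/-- **The error term of the divisor problem is locally a Brownian motion**, in the full range of
widths.  (1) Lebesgue measure.  (2) All laws of the base point with decaying Fourier transform. -/
theorem result (Δ : ℝ → ℝ)
    (hΔ : ∀ x : ℝ, Δ x = ∑ n ∈ Finset.Icc 1 ⌊x⌋₊, (n.divisors.card : ℝ) -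
      x * (Real.log x + 2 * Real.eulerMascheroniConstant - 1))
    {Ω : Type} [MeasurableSpace Ω] (P : Measure Ω) (B : ℝ≥0 → Ω → ℝ) (hB : IsBrownianReal B P)
    (F : C(unitInterval, ℝ) →ᵇ ℝ) (ε : ℝ) (hε : 0 < ε) :
    (∃ (ρ₀ δ T₀ : ℝ) (M₀ : ℕ), 0 < ρ₀ ∧ 0 < δ ∧ ∀ (T ρ : ℝ) (M : ℕ), T₀ ≤ T → T ^ (-δ) ≤ ρ →
      ρ ≤ ρ₀ → M₀ ≤ M → (M : ℝ) ≤ T ^ δ →
      |(1 / T) * (∫ y in T..(2 * T), F (pathY Δ ρ M y)) - ∫ ω, F (bpath B ω) ∂P| ≤ ε) ∧
    (∀ c₁ c₂ K s : ℝ, 0 < c₁ → 1 / 3 < s →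
      ∃ (ρ₀ δ T₀ : ℝ) (M₀ : ℕ), 0 < ρ₀ ∧ 0 < δ ∧ ∀ (T ρ : ℝ) (M : ℕ), T₀ ≤ T → T ^ (-δ) ≤ ρ →
        ρ ≤ ρ₀ → M₀ ≤ M → (M : ℝ) ≤ T ^ δ → ∀ μ : Measure ℝ, AdmY c₁ c₂ K s T μ →
        |∫ x, F (pathY Δ ρ M (T * x)) ∂μ - ∫ ω, F (bpath B ω) ∂P| ≤ ε) := by
  have key := Pool.Agent.U251.LD.Fin.t_FINQ Pool.Agent.U251.LD.main_full Δ (fun x => hΔ x)
  refine ⟨?_, fun c₁ c₂ K s hc hs => key c₁ c₂ K s hc hs P B hB F ε hε⟩
  obtain ⟨ρ₀, δ, T₀, M₀, h1, h2, H⟩ := key 1 2 2 (1 / 2) one_pos (by norm_num) P B hB F ε hε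
  refine ⟨ρ₀, δ, max T₀ 1, M₀, h1, h2, fun T ρ M hT a1 a2 a3 a4 => ?_⟩
  have hT1 : 1 ≤ T := (le_max_right _ _).trans hT
  have h3 := H T ρ M ((le_max_left _ _).trans hT) a1 a2 a3 a4 _
    (Pool.Agent.U251.LD.Fin.lebY T hT1)
  rw [Pool.Agent.U251.LD.Fin.leb_int (fun y => F (pathY Δ ρ M y)) (by positivity)]
  exact h3

end Pool.Agent.Results.MP_bc6037_nt.LocallyBrownian
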