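import Mathlib
import Pool.Agent.H425R3.MM.K11

/-!
# The joint law and the moments of `Δ₂` along quadratic sequences

`Δ(x) = ∑_{n ≤ x} d(n) - x log x - (2γ - 1) x` is the function `Δ₂` of the Piltz divisor problem and
`E(x) = Δ(x) / x^{1/4}`.  Let `a > 0`, let `b_1, …, b_k` be distinct real numbers, `c_1, …, c_k` real, such
that the values `P_i(n) = a n² + b_i n + c_i`, `n = 0, 1, 2, …`, are positive; for instance `k = 1` and
`P(n) = (n + 1)²` (all squares), or `P_i(n) = (n + β_i)²` with distinct `β_i > 0`.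
-/

set_option autoImplicit false

open Filter Topology MeasureTheory

namespace Pool.Agent.Results.MP_bc6037_nt.MomentsAtSquares

/-- summation over dyadic blocks -/
theorem dyadic (P : ℕ → Prop) [DecidablePred P] {θ C₁ : ℝ} (hθ : 0 < θ) (hC₁ : 0 ≤ C₁)
    (h : ∀ N : ℕ, 1 ≤ N → (((Finset.Ioc (N / 2) N).filter P).card : ℝ) ≤ C₁ * (N : ℝ) ^ θ) :
    ∃ C : ℝ, 0 < C ∧ ∀ N : ℕ, 1 ≤ N →
      (((Finset.Icc 1 N).filter P).card : ℝ) ≤ C * (N : ℝ) ^ θ := by
  have h2 : (2 : ℝ) ^ (-θ) < 1 := Real.rpow_lt_one_of_one_lt_of_neg (by norm_num) (by linarith)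
  have h3 : 0 < 1 - (2 : ℝ) ^ (-θ) := by linarith
  refine ⟨(C₁ + 1) / (1 - (2 : ℝ) ^ (-θ)), by positivity, ?_⟩
  obtain ⟨C, hC⟩ : ∃ C : ℝ, C = (C₁ + 1) / (1 - (2 : ℝ) ^ (-θ)) := ⟨_, rfl⟩
  have hC0 : 0 < C := by rw [hC]; positivity
  have hC2 : C * (2 : ℝ) ^ (-θ) + C₁ ≤ C := by
    have : C * (1 - (2 : ℝ) ^ (-θ)) = C₁ + 1 := by
      rw [hC]
      field_simp
    linarith
  rw [← hC]
  intro N
  induction N using Nat.strong_induction_on with
  | _ N ih =>
    intro hN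
    have hNR : (0 : ℝ) < N := by exact_mod_cast hN
    have hsub : (Finset.Icc 1 N).filter P ⊆
        (Finset.Icc 1 (N / 2)).filter P ∪ (Finset.Ioc (N / 2) N).filter P := by
      intro x hx
      rw [Finset.mem_filter, Finset.mem_Icc] at hx
      rw [Finset.mem_union, Finset.mem_filter, Finset.mem_filter, Finset.mem_Icc, Finset.mem_Ioc]
      by_cases hx2 : x ≤ N / 2
      · exact Or.inl ⟨⟨hx.1.1, hx2⟩, hx.2⟩
      · exact Or.inr ⟨⟨by omega, hx.1.2⟩, hx.2⟩
    have h4 : (((Finset.Icc 1 N).filter P).card : ℝ) ≤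
        (((Finset.Icc 1 (N / 2)).filter P).card : ℝ) +
          (((Finset.Ioc (N / 2) N).filter P).card : ℝ) := by
      exact_mod_cast (Finset.card_le_card hsub).trans (Finset.card_union_le _ _)
    have h5 : (((Finset.Icc 1 (N / 2)).filter P).card : ℝ) ≤ C * (2 : ℝ) ^ (-θ) * (N : ℝ) ^ θ := by
      rcases Nat.eq_zero_or_pos (N / 2) with h0 | h0
      · rw [h0]
        simp only [Finset.Icc_eq_empty (show ¬ (1 ≤ 0) by omega), Finset.filter_empty,
          Finset.card_empty, Nat.cast_zero]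
        positivity
      · refine (ih (N / 2) (by omega) h0).trans ?_
        rw [mul_assoc]
        refine mul_le_mul_of_nonneg_left ?_ hC0.le
        have h6 : ((N / 2 : ℕ) : ℝ) ≤ N / 2 := by
          rw [le_div_iff₀ (by norm_num)]
          exact_mod_cast Nat.div_mul_le_self N 2
        calc ((N / 2 : ℕ) : ℝ) ^ θ ≤ ((N : ℝ) / 2) ^ θ :=
              Real.rpow_le_rpow (Nat.cast_nonneg _) h6 hθ.le
          _ = (2 : ℝ) ^ (-θ) * (N : ℝ) ^ θ := by
              rw [Real.div_rpow hNR.le (by norm_num), Real.rpow_neg (by norm_num)]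
              ring
    have h7 := h N hN
    have h8 : 0 ≤ (N : ℝ) ^ θ := by positivity
    nlinarith

open Classical in
/-- The joint behaviour of `Δ₂` along quadratic sequences.  The vectors
`(E(P_1(n)), …, E(P_k(n)))` have a joint limit law `μ` on `ℝ^k` with a
density that extends to an entire function on `ℂ^k` and with full support, and all mixed moments of
order `p < 6` converge, even in short intervals: for every continuous `f` with
`|f(x)| ≤ C (1 + ∑ |x_i|^p)`, `0 < p < 6`, the averages of `f` over `m ≤ n < m + N` converge to `∫ f dμ`,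
uniformly over all `m` with `m^{max(1/2, p/6) + ε} ≤ N`.  The same holds for the proportion of the `n`
with `(E(P_i(n)))_i ∈ A` for every set `A` with null frontier.  For `0 < ε < 1/6` and `δ > 0` one has
`|Δ(n²)| ≤ n^{1/2 + ε}` for all but `O(N^{1 - 6ε + δ})` of the integers `n ≤ N`. -/
theorem result (Δ : ℝ → ℝ)
    (hΔ : ∀ x : ℝ, Δ x = (∑ j ∈ Finset.Icc 1 ⌊x⌋₊, (j.divisors.card : ℝ)) - x * Real.log x -
      (2 * Real.eulerMascheroniConstant - 1) * x) :
    (∀ (k : ℕ) (a : ℝ), 0 < a → ∀ (b c : Fin k → ℝ), Function.Injective b →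
      (∀ i, ∀ n : ℕ, 0 < a * (n : ℝ) ^ 2 + b i * n + c i) →
      ∃ (μ : ProbabilityMeasure (Fin k → ℝ)) (g : (Fin k → ℂ) → ℂ),
        Differentiable ℂ g ∧
        (∀ x : Fin k → ℝ, 0 ≤ (g (fun i => (x i : ℂ))).re ∧ (g (fun i => (x i : ℂ))).im = 0) ∧
        (μ : Measure (Fin k → ℝ)) =
          volume.withDensity (fun x : Fin k → ℝ => ENNReal.ofReal (g (fun i => (x i : ℂ))).re) ∧
        (∀ A : Set (Fin k → ℝ), IsOpen A → A.Nonempty → 0 < (μ : Measure (Fin k → ℝ)) A) ∧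
        (∀ p : ℝ, 0 < p → p < 6 → ∀ f : (Fin k → ℝ) → ℝ, Continuous f →
          (∃ C : ℝ, ∀ x, |f x| ≤ C * (1 + ∑ i, |x i| ^ p)) →
          Integrable f (μ : Measure (Fin k → ℝ)) ∧
          ∀ ε : ℝ, 0 < ε → ∀ η : ℝ, 0 < η →
            ∃ N₀ : ℕ, ∀ N : ℕ, N₀ ≤ N → ∀ m : ℕ, (m : ℝ) ^ (max (1 / 2) (p / 6) + ε) ≤ N →
            |(∑ n ∈ Finset.Ico m (m + N),
                f (fun i => Δ (a * (n : ℝ) ^ 2 + b i * n + c i) /
                  (a * (n : ℝ) ^ 2 + b i * n + c i) ^ (1 / 4 : ℝ))) / N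
              - ∫ x, f x ∂(μ : Measure (Fin k → ℝ))| ≤ η) ∧
        (∀ A : Set (Fin k → ℝ), volume (frontier A) = 0 →
          ∀ ε : ℝ, 0 < ε → ∀ η : ℝ, 0 < η →
          ∃ N₀ : ℕ, ∀ N : ℕ, N₀ ≤ N → ∀ m : ℕ, (m : ℝ) ^ (1 / 2 + ε) ≤ N →
          |(((Finset.Ico m (m + N)).filter (fun n : ℕ =>
              (fun i => Δ (a * (n : ℝ) ^ 2 + b i * n + c i) /
                  (a * (n : ℝ) ^ 2 + b i * n + c i) ^ (1 / 4 : ℝ)) ∈ A)).card : ℝ) / N
            - (μ : Measure (Fin k → ℝ)).real A| ≤ η)) ∧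
    (∀ ε δ : ℝ, 0 < ε → ε < 1 / 6 → 0 < δ → ∃ C : ℝ, 0 < C ∧ ∀ N : ℕ, 1 ≤ N →
      (((Finset.Icc 1 N).filter (fun n : ℕ => (n : ℝ) ^ (1 / 2 + ε) < |Δ ((n : ℝ) ^ 2)|)).card : ℝ) ≤
        C * (N : ℝ) ^ (1 - 6 * ε + δ)) := by
  have hΔE : ∀ x : ℝ, Δ x / x ^ (1 / 4 : ℝ) = Pool.Agent.H425R3.JL.Edv x := by
    intro x
    unfold Pool.Agent.H425R3.JL.Edv
    rw [hΔ]
  constructor
  · intro k a ha b c hb hP
    simp only [hΔE]
    exact Pool.Agent.H425R3.MM.final_mom Pool.Agent.H425R3.JD.div_dataW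
      Pool.Agent.H425R3.MM.div_Lv ha b c hb hP
  · intro ε δ hε hε6 hδ
    -- the exponent
    obtain ⟨p, hp2, hp6, hpδ⟩ : ∃ p : ℝ, 2 ≤ p ∧ p < 6 ∧ 6 * ε - δ ≤ p * ε := by
      refine ⟨max 2 (6 - δ), le_max_left _ _, max_lt (by norm_num) (by linarith), ?_⟩
      have h1 : 6 - δ ≤ max 2 (6 - δ) := le_max_right _ _
      nlinarith
    have hθ : 0 < 1 - p * ε := by nlinarith
    obtain ⟨C, hC, N0, hN0⟩ := Pool.Agent.H425R3.MM.div_Lv 1 2 1 one_pos
      (fun n => by positivity) p hp2 hp6 1 one_pos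
    -- the dyadic blocks
    have hbl : ∀ N : ℕ, 1 ≤ N → (((Finset.Ioc (N / 2) N).filter
        (fun n : ℕ => (n : ℝ) ^ (1 / 2 + ε) < |Δ ((n : ℝ) ^ 2)|)).card : ℝ) ≤
        (C * (2 : ℝ) ^ (p * ε) + N0 + 2) * (N : ℝ) ^ (1 - p * ε) := by
      intro N hN
      have hNR : (1 : ℝ) ≤ N := by exact_mod_cast hN
      have hN0' : (0 : ℝ) < N := by linarith
      have hNθ : 1 ≤ (N : ℝ) ^ (1 - p * ε) := Real.one_le_rpow hNR hθ.le
      have hc0 : 0 ≤ C * (2 : ℝ) ^ (p * ε) := by positivity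
      have hcard : (((Finset.Ioc (N / 2) N).filter
        (fun n : ℕ => (n : ℝ) ^ (1 / 2 + ε) < |Δ ((n : ℝ) ^ 2)|)).card : ℝ) ≤ N := by
        refine le_trans (by exact_mod_cast Finset.card_filter_le _ _ :
          _ ≤ ((Finset.Ioc (N / 2) N).card : ℝ)) ?_
        rw [Nat.card_Ioc]
        exact_mod_cast Nat.sub_le _ _
      by_cases hsm : N < N0 + 2
      · refine hcard.trans ?_
        have h1 : (N : ℝ) ≤ N0 + 2 := by exact_mod_cast hsm.le
        have h2 : (0 : ℝ) ≤ N0 := Nat.cast_nonneg _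
        nlinarith
      · have hN2 : 2 ≤ N := by omega
        have hv : 1 ≤ ((N : ℝ) / 2) ^ ε := Real.one_le_rpow (by
          have : (2 : ℝ) ≤ N := by exact_mod_cast hN2
          linarith) hε.le
        have h3 := hN0 N (by omega) 0 (by
          rw [Nat.cast_zero, Real.zero_rpow (by positivity)]
          exact Nat.cast_nonneg _) (((N : ℝ) / 2) ^ ε) hv
        have hsub : (((Finset.Ioc (N / 2) N).filter
            (fun n : ℕ => (n : ℝ) ^ (1 / 2 + ε) < |Δ ((n : ℝ) ^ 2)|)).card : ℝ) ≤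
            (((Finset.Ico 0 (0 + N)).filter (fun n : ℕ => ((N : ℝ) / 2) ^ ε ≤
              |Pool.Agent.H425R3.JL.Edv (1 * (n : ℝ) ^ 2 + 2 * n + 1)|)).card : ℝ) := by
          apply Nat.cast_le.mpr
          refine Finset.card_le_card_of_injOn (fun n => n - 1) ?_ ?_
          · intro n hn
            rw [Finset.mem_coe, Finset.mem_filter, Finset.mem_Ioc] at hn
            obtain ⟨⟨hn1, hn2⟩, hn3⟩ := hn
            have hn0 : 1 ≤ n := by omega
            have hnR : (0 : ℝ) < n := by exact_mod_cast hn0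
            rw [Finset.mem_coe, Finset.mem_filter, Finset.mem_Ico]
            refine ⟨⟨Nat.zero_le _, by
              change n - 1 < 0 + N
              omega⟩, ?_⟩
            have e1 : (1 : ℝ) * ((n - 1 : ℕ) : ℝ) ^ 2 + 2 * ((n - 1 : ℕ) : ℝ) + 1 = (n : ℝ) ^ 2 := by
              rw [Nat.cast_sub hn0]
              push_cast
              ring
            rw [e1, ← hΔE, abs_div]
            have e2 : |((n : ℝ) ^ 2) ^ (1 / 4 : ℝ)| = (n : ℝ) ^ (1 / 2 : ℝ) := by
              rw [abs_of_nonneg (by positivity), ← Real.rpow_natCast, ← Real.rpow_mul hnR.le]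
              norm_num
            rw [e2, le_div_iff₀ (by positivity)]
            have h4 : (N : ℝ) / 2 ≤ n := by
              have : N ≤ 2 * n := by omega
              have h5 : (N : ℝ) ≤ 2 * n := by exact_mod_cast this
              linarith
            calc ((N : ℝ) / 2) ^ ε * (n : ℝ) ^ (1 / 2 : ℝ)
                ≤ (n : ℝ) ^ ε * (n : ℝ) ^ (1 / 2 : ℝ) :=
                  mul_le_mul_of_nonneg_right
                    (Real.rpow_le_rpow (by positivity) h4 hε.le) (by positivity)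
              _ = (n : ℝ) ^ (1 / 2 + ε) := by
                  rw [← Real.rpow_add hnR, add_comm]
              _ ≤ _ := hn3.le
          · intro x hx y hy hxy
            rw [Finset.mem_coe, Finset.mem_filter, Finset.mem_Ioc] at hx hy
            simp only at hxy
            omega
        refine hsub.trans (h3.trans ?_)
        have e3 : (((N : ℝ) / 2) ^ ε) ^ (-p) = (2 : ℝ) ^ (p * ε) * (N : ℝ) ^ (-(p * ε)) := by
          rw [← Real.rpow_mul (by positivity), Real.div_rpow hN0'.le (by norm_num),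
            div_eq_mul_inv, ← Real.rpow_neg (by norm_num), mul_comm]
          congr 1 <;> · congr 1; ring
        have e4 : (N : ℝ) ^ (1 - p * ε) = N * (N : ℝ) ^ (-(p * ε)) := by
          rw [sub_eq_add_neg, Real.rpow_add hN0', Real.rpow_one]
        rw [e3]
        have h2 : (0 : ℝ) ≤ N0 := Nat.cast_nonneg _
        calc C * (N * ((2 : ℝ) ^ (p * ε) * (N : ℝ) ^ (-(p * ε))))
            = C * (2 : ℝ) ^ (p * ε) * (N : ℝ) ^ (1 - p * ε) := by rw [e4]; ring
          _ ≤ _ := mul_le_mul_of_nonneg_right (by linarith) (by positivity)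
    obtain ⟨C2, hC2, hfin⟩ := dyadic _ hθ (by positivity) hbl
    refine ⟨C2, hC2, fun N hN => (hfin N hN).trans ?_⟩
    refine mul_le_mul_of_nonneg_left ?_ hC2.le
    exact Real.rpow_le_rpow_of_exponent_le (by exact_mod_cast hN) (by linarith)

end Pool.Agent.Results.MP_bc6037_nt.MomentsAtSquares
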