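import Mathlib
import Pool.Agent.H452R2.Om.O10
import Pool.Agent.H383.DivF

/-!
# Large values of `Δ₂` at the squares, in the full range up to the conjectured maximal order

`Δ(x) = ∑_{n ≤ x} d(n) - x log x - (2γ - 1) x` is the function `Δ₂` of the Piltz divisor problem.  Let
`x = a n² + c` with real `a > 0`, `c ≥ 0` (for instance the squares `x = n²`, or the squares `(αn)²`).  For all
large `N` and all `V` between a constant and `c₀ (log N)^{1/4} (loglog N)^{(3/4)(2^{4/3}-1)}`, the number of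
`1 ≤ n ≤ N` with `Δ(x) ≥ V x^{1/4}` is at least `N exp(-C₀ V⁴ (log V)^{-3(2^{4/3}-1)})`, and this is at least
`N^{1-ε}`.
-/

set_option autoImplicit false

open Filter Topology

namespace Pool.Agent.Results.MP_bc6037_nt.RecordValuesAtSquares

open Classical in
/-- **Large values of `Δ₂` along `a n² + c`.** -/
theorem result (Δ : ℝ → ℝ)
    (hΔ : ∀ x : ℝ, Δ x = (∑ j ∈ Finset.Icc 1 ⌊x⌋₊, (j.divisors.card : ℝ)) - x * Real.log x -
      (2 * Real.eulerMascheroniConstant - 1) * x) (a c : ℝ) (ha : 0 < a) (hc : 0 ≤ c) :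
    ∃ C₀ V₀ : ℝ, 0 < C₀ ∧ 1 < V₀ ∧ ∀ ε : ℝ, 0 < ε → ∃ c₀ : ℝ, 0 < c₀ ∧ ∃ N₀ : ℕ, ∀ N : ℕ, N₀ ≤ N →
      ∀ V : ℝ, V₀ ≤ V →
        V ≤ c₀ * (Real.log N) ^ (1 / 4 : ℝ) *
          (Real.log (Real.log N)) ^ ((3 / 4) * ((2 : ℝ) ^ (4 / 3 : ℝ) - 1)) →
        (N : ℝ) ^ (1 - ε) ≤
          N * Real.exp (-(C₀ * V ^ 4 * (Real.log V) ^ (-(3 * ((2 : ℝ) ^ (4 / 3 : ℝ) - 1))))) ∧
        N * Real.exp (-(C₀ * V ^ 4 * (Real.log V) ^ (-(3 * ((2 : ℝ) ^ (4 / 3 : ℝ) - 1))))) ≤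
          (((Finset.Icc 1 N).filter (fun n : ℕ =>
            V * (a * (n : ℝ) ^ 2 + c) ^ (1 / 4 : ℝ) ≤ Δ (a * (n : ℝ) ^ 2 + c))).card : ℝ) := by
  obtain rfl : Δ = Pool.Agent.H383.Div.Dx := funext hΔ
  exact Pool.Agent.H452R2.Om.div_tail Pool.Agent.H383.Div.vor ha hc

end Pool.Agent.Results.MP_bc6037_nt.RecordValuesAtSquares
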